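import Pool.Agent.H599.Tor

set_option autoImplicit false

/-!
# Statements: all pairs of dimensions for `t` and `t + 1`
-/

open Polynomial Filter Topology
open scoped ENNReal NNReal
open Pool.Agent.H599.Tor

namespace Pool.Agent.H599.PR

/-- SPR: an element supported in `K`, with a countable orbit closure for `t` and a rich orbit for `t + 1` -/
def S_SPR : Prop := ∀ (F : Type) [Field F] [Fintype F] (p : ℕ) [Fact p.Prime] [CharP F p] (K : Set ℕ),
  ∃ z : Torus F, (∀ n, n ∉ K → z.digit n = 0) ∧
    (closure (Set.range fun n : ℕ => mul (X ^ n : F[X]) z)).Countable ∧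
    ∀ (k L : ℕ) (w : ℕ → F), ∃ e : ℕ,
      ∀ n < L, (∀ l, p ^ k * l + n % p ^ k ∈ K) → (mul ((X + 1) ^ e : F[X]) z).digit n = w n

/-- REFL: the substitution `t → - 1 - t` -/
def S_REFL : Prop := ∀ (F : Type) [Field F] [Fintype F], ∃ σ : Torus F → Torus F, Isometry σ ∧
  (∀ x, mul X (σ x) = σ (mul (-1 - X) x)) ∧ (∀ x, mul (X + 1) (σ x) = σ (mul (-X) x))

/-- SUM: adding an element with a countable orbit closure -/
def S_SUM : Prop := ∀ (F : Type) [Field F] [Fintype F] (A : F[X]) (x y : Torus F),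
  (closure (Set.range fun n : ℕ => mul (A ^ n) y)).Countable →
  dimH (closure (Set.range fun n : ℕ => mul (A ^ n) (⟨fun i => x.digit i + y.digit i⟩ : Torus F))) ≤
    dimH (closure (Set.range fun n : ℕ => mul (A ^ n) x))

/-- SCAL: replacing `A` by `c A` -/
def S_SCAL : Prop := ∀ (F : Type) [Field F] [Fintype F] (A : F[X]) (c : F) (x : Torus F), c ≠ 0 →
  dimH (closure (Set.range fun n : ℕ => mul ((C c * A) ^ n) x)) =
    dimH (closure (Set.range fun n : ℕ => mul (A ^ n) x)) ∧
  ((closure (Set.range fun n : ℕ => mul (A ^ n) x)).Countable →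
    (closure (Set.range fun n : ℕ => mul ((C c * A) ^ n) x)).Countable)

end Pool.Agent.H599.PR
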