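import Pool.Agent.H599.UP
import Pool.Agent.H599.SP.CMP
import Pool.Agent.H599.PR.Stm

set_option autoImplicit false

/-!
# All pairs of dimensions for `t` and `t + 1`: assembly
-/

open Polynomial Filter Topology
open scoped ENNReal NNReal
open Pool.Agent.H599.Tor Pool.Agent.H599.UP Pool.Agent.H599.SP

namespace Pool.Agent.H599.PR.FIN

/-- the orbit for one polynomial -/
def orb {F : Type} [Field F] (A : F[X]) (x : Torus F) : Set (Torus F) := Set.range fun n : ℕ => mul (A ^ n) x

lemma orbit_one {F : Type} [Field F] (A : F[X]) (x : Torus F) : orbit (fun _ : Fin 1 => A) x = orb A x := by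
  ext y
  constructor
  · rintro ⟨e, rfl⟩
    refine ⟨e 0, ?_⟩
    simp
  · rintro ⟨n, rfl⟩
    refine ⟨fun _ => n, ?_⟩
    simp

variable {F : Type} [Field F] [Fintype F]

/-- upper bound for elements supported in `K` -/
theorem up (p : ℕ) [Fact p.Prime] [CharP F p] (α : ℝ) (K : Set ℕ)
    (hK : ∀ k : ℕ, ({r : ℕ | r < p ^ k ∧ ∃ l, p ^ k * l + r ∈ K}.ncard : ℝ) ≤ α * (p : ℝ) ^ k + 1)
    (x : Torus F) (hx : ∀ n, n ∉ K → x.digit n = 0) (m : ℕ) (A : Fin m → F[X]) :
    dimH (closure (orbit A x)) ≤ ENNReal.ofReal α := by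
  classical
  have hp : 2 ≤ p := (Fact.out : p.Prime).two_le
  apply dim_limit p _ m A α 2
  intro k
  have hsub : {y : ℕ → F | ∃ r < p ^ k, y = fun n => x.digit (p ^ k * n + r)} ⊆
      insert (fun _ => 0) ((fun r : ℕ => fun n : ℕ => x.digit (p ^ k * n + r)) ''
        {r : ℕ | r < p ^ k ∧ ∃ l, p ^ k * l + r ∈ K}) := by
    rintro y ⟨r, hr, rfl⟩
    by_cases h : ∃ l, p ^ k * l + r ∈ K
    · exact Set.mem_insert_of_mem _ ⟨r, ⟨hr, h⟩, rfl⟩
    · push Not at h
      have e : (fun n => x.digit (p ^ k * n + r)) = fun _ => 0 := by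
        funext n
        exact hx _ (h n)
      rw [e]
      exact Set.mem_insert _ _
  have hfin : {r : ℕ | r < p ^ k ∧ ∃ l, p ^ k * l + r ∈ K}.Finite :=
    (Set.finite_lt_nat (p ^ k)).subset fun r hr => hr.1
  have h2 : decimations x (p ^ k) ≤ {r : ℕ | r < p ^ k ∧ ∃ l, p ^ k * l + r ∈ K}.ncard + 1 := by
    unfold decimations
    refine (Set.ncard_le_ncard hsub ((hfin.image _).insert _)).trans ?_
    refine (Set.ncard_insert_le _ _).trans ?_
    exact Nat.add_le_add_right (Set.ncard_image_le hfin) 1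
  have h3 := hK k
  have h4 : (decimations x (p ^ k) : ℝ) ≤
      ({r : ℕ | r < p ^ k ∧ ∃ l, p ^ k * l + r ∈ K}.ncard : ℝ) + 1 := by exact_mod_cast h2
  linarith

/-- lower bound for rich sets -/
theorem low (hLB : S_LB) (hCMP : S_CMP) (p : ℕ) (hp : 2 ≤ p) (α : ℝ) (K : Set ℕ)
    (hK : ∀ k : ℕ, α * (p : ℝ) ^ k - 1 ≤ ({r : ℕ | r < p ^ k ∧ ∀ l, p ^ k * l + r ∈ K}.ncard : ℝ))
    (E : Set (Torus F)) (hE : ∀ (k L : ℕ) (w : ℕ → F), ∃ y ∈ E, ∀ n < L, (∀ l, p ^ k * l + n % p ^ k ∈ K) →
      y.digit n = w n) : ENNReal.ofReal α ≤ dimH (closure E) := by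
  classical
  have hlow : ∀ k : ℕ, ENNReal.ofReal (α - ((p : ℝ) ^ k)⁻¹) ≤ dimH (closure E) := by
    intro k
    have hpk : (0:ℝ) < (p : ℝ) ^ k := by positivity
    have hQ : 0 < p ^ k := by positivity
    set R : Finset ℕ := (Finset.range (p ^ k)).filter (fun r => ∀ l, p ^ k * l + r ∈ K) with hR
    have hRc : (R.card : ℝ) = ({r : ℕ | r < p ^ k ∧ ∀ l, p ^ k * l + r ∈ K}.ncard : ℝ) := by
      have e : {r : ℕ | r < p ^ k ∧ ∀ l, p ^ k * l + r ∈ K} = (R : Set ℕ) := by
        ext r
        rw [hR]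
        simp
      rw [e, Set.ncard_coe_finset]
    have h2 := hCMP F E (p ^ k) R hQ (by
      intro L w
      obtain ⟨y, hy1, hy2⟩ := hE k L w
      refine ⟨y, hy1, fun n hn hnR => hy2 n hn ?_⟩
      rw [hR] at hnR
      exact (Finset.mem_filter.1 hnR).2)
    have h3 := hLB F (p ^ k) R hQ (fun r hr => Finset.mem_range.1 (Finset.mem_filter.1 hr).1)
    refine le_trans ?_ (h3.trans h2)
    have h4 : ((R.card : ℝ≥0∞) / ((p ^ k : ℕ) : ℝ≥0∞)) = ENNReal.ofReal ((R.card : ℝ) / (p : ℝ) ^ k) := by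
      rw [ENNReal.ofReal_div_of_pos hpk, ENNReal.ofReal_natCast]
      congr 1
      rw [← Nat.cast_pow, ENNReal.ofReal_natCast]
    rw [h4]
    apply ENNReal.ofReal_le_ofReal
    rw [le_div_iff₀ hpk, sub_mul, inv_mul_cancel₀ hpk.ne', hRc]
    exact hK k
  have h2 : Tendsto (fun k : ℕ => ENNReal.ofReal (α - ((p : ℝ) ^ k)⁻¹)) atTop (𝓝 (ENNReal.ofReal (α - 0))) := by
    apply ENNReal.tendsto_ofReal
    apply Tendsto.const_sub
    exact (tendsto_pow_atTop_atTop_of_one_lt (by exact_mod_cast (by omega : 1 < p))).inv_tendsto_atTop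
  have h3 := le_of_tendsto' h2 hlow
  rwa [sub_zero] at h3

/-- one element: countable for `t`, dimension `α` for `t + 1` -/
theorem one (hLB : S_LB) (hCMP : S_CMP) (hKS : S_KS) (hSPR : S_SPR) (p : ℕ) [Fact p.Prime] [CharP F p]
    (α : ℝ) (h0 : 0 ≤ α) (h1 : α ≤ 1) :
    ∃ z : Torus F, (closure (orb X z)).Countable ∧ dimH (closure (orb (X + 1) z)) = ENNReal.ofReal α := by
  have hp : 2 ≤ p := (Fact.out : p.Prime).two_le
  obtain ⟨K, hK⟩ := hKS p hp α h0 h1
  obtain ⟨z, hz1, hz2, hz3⟩ := hSPR F p K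
  refine ⟨z, hz2, le_antisymm ?_ ?_⟩
  · rw [← orbit_one]
    exact up p α K (fun k => (hK k).1) z hz1 1 _
  · refine low hLB hCMP p hp α K (fun k => (hK k).2) _ fun k L w => ?_
    obtain ⟨e, he⟩ := hz3 k L w
    exact ⟨_, ⟨e, rfl⟩, he⟩

/-- negation -/
def neg (x : Torus F) : Torus F := ⟨fun i => - x.digit i⟩

omit [Fintype F] in
lemma neg_neg' (x : Torus F) : neg (neg x) = x := by
  ext i
  simp [neg]

lemma neg_dist_le (x y : Torus F) : distance (neg x) (neg y) ≤ distance x y := by
  classical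
  by_cases h : ∃ n, x.digit n ≠ y.digit n
  · have e : distance x y = ((Fintype.card F : ℝ)⁻¹) ^ (Nat.find h + 1) := by
      unfold distance
      rw [dif_pos h]
    rw [e, distance_le]
    intro n hn
    by_contra h1
    have h3 : x.digit n ≠ y.digit n := by
      intro h2
      apply h1
      simp [neg, h2]
    have := Nat.find_min' h h3
    omega
  · have e : distance (neg x) (neg y) = 0 := by
      unfold distance
      rw [dif_neg]
      rintro ⟨n, hn⟩
      push Not at h
      exact hn (by simp [neg, h n])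
    rw [e]
    exact distance_nonneg x y

lemma neg_dist (x y : Torus F) : dist (neg x) (neg y) = dist x y := by
  show distance (neg x) (neg y) = distance x y
  apply le_antisymm (neg_dist_le x y)
  have h := neg_dist_le (neg x) (neg y)
  rwa [neg_neg', neg_neg'] at h

omit [Fintype F] in
lemma mul_neg' (A : F[X]) (x : Torus F) : mul A (neg x) = neg (mul A x) := by
  ext n
  unfold mul neg
  simp only
  rw [← Finset.sum_neg_distrib]
  refine Finset.sum_congr rfl fun i _ => ?_
  ring

lemma neg_countable (A : F[X]) (y : Torus F) (h : (closure (orb A y)).Countable) :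
    (closure (orb A (neg y))).Countable := by
  have hcont : Continuous (neg : Torus F → Torus F) :=
    (Isometry.of_dist_eq neg_dist).continuous
  have hcl : IsClosed (neg ⁻¹' closure (orb A y)) := isClosed_closure.preimage hcont
  have hsub : closure (orb A (neg y)) ⊆ neg ⁻¹' closure (orb A y) := by
    apply closure_minimal _ hcl
    rintro _ ⟨n, rfl⟩
    show neg (mul (A ^ n) (neg y)) ∈ closure (orb A y)
    rw [mul_neg', neg_neg']
    exact subset_closure ⟨n, rfl⟩
  refine Set.Countable.mono hsub (h.preimage ?_)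
  intro a b hab
  rw [← neg_neg' a, ← neg_neg' b, hab]

/-- adding an element with a countable orbit closure -/
theorem sum_eq (hSUM : S_SUM) (A : F[X]) (x y : Torus F) (h : (closure (orb A y)).Countable) :
    dimH (closure (orb A (⟨fun i => x.digit i + y.digit i⟩ : Torus F))) = dimH (closure (orb A x)) := by
  apply le_antisymm (hSUM F A x y h)
  have h1 := hSUM F A (⟨fun i => x.digit i + y.digit i⟩ : Torus F) (neg y) (neg_countable A y h)
  have e : (⟨fun i => (⟨fun i => x.digit i + y.digit i⟩ : Torus F).digit i + (neg y).digit i⟩ : Torus F) = x := by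
    ext i
    simp [neg]
  rw [e] at h1
  exact h1

omit [Fintype F] in
lemma iter (A B : F[X]) (σ : Torus F → Torus F) (h : ∀ x, mul A (σ x) = σ (mul B x)) (x : Torus F) (n : ℕ) :
    mul (A ^ n) (σ x) = σ (mul (B ^ n) x) := by
  have hmul : ∀ (C D : F[X]) (y : Torus F), mul (C * D) y = mul C (mul D y) := by
    intro C D y
    apply Torus.ext
    rw [mul_digit, mul_digit, mul_digit, Pool.Agent.H599.FF.ml_mul]
  have hone : ∀ y : Torus F, mul 1 y = y := by
    intro y
    apply Torus.ext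
    rw [mul_digit, Pool.Agent.H599.FF.ml_eq]
    simp
  induction n generalizing x with
  | zero => rw [pow_zero, pow_zero, hone, hone]
  | succ n ih => rw [pow_succ, hmul, h, ih, pow_succ, hmul]

omit [Fintype F] in
lemma orb_image (A B : F[X]) (σ : Torus F → Torus F) (h : ∀ x, mul A (σ x) = σ (mul B x)) (x : Torus F) :
    orb A (σ x) = σ '' orb B x := by
  ext y
  constructor
  · rintro ⟨n, rfl⟩
    exact ⟨_, ⟨n, rfl⟩, (iter A B σ h x n).symm⟩
  · rintro ⟨_, ⟨n, rfl⟩, rfl⟩
    exact ⟨n, iter A B σ h x n⟩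

lemma closure_image (σ : Torus F → Torus F) (hσ : Isometry σ) (S : Set (Torus F)) :
    closure (σ '' S) = σ '' closure S := by
  apply Set.Subset.antisymm
  · have hc : IsCompact (closure S) := by
      have h := Pool.Agent.H599.SP.CMPaux.compact_univ (F := F)
      exact h.of_isClosed_subset isClosed_closure (Set.subset_univ _)
    exact closure_minimal (Set.image_mono subset_closure) (hc.image hσ.continuous).isClosed
  · exact image_closure_subset_closure_image hσ.continuous

/-- all pairs -/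
theorem pairs (hLB : S_LB) (hCMP : S_CMP) (hKS : S_KS) (hRAT : S_RAT) (hSPR : S_SPR) (hREFL : S_REFL)
    (hSUM : S_SUM) (hSCAL : S_SCAL) (p : ℕ) [Fact p.Prime] [CharP F p]
    (α β : ℝ) (h0 : 0 ≤ α) (h1 : α ≤ 1) (h2 : 0 ≤ β) (h3 : β ≤ 1) :
    ∃ x : Torus F, Irrational x ∧ dimH (closure (orb X x)) = ENNReal.ofReal α ∧
      dimH (closure (orb (X + 1) x)) = ENNReal.ofReal β := by
  have hp : 2 ≤ p := (Fact.out : p.Prime).two_le
  obtain ⟨z, hz1, hz2⟩ := one (F := F) hLB hCMP hKS hSPR p β h2 h3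
  obtain ⟨z', hz3, hz4⟩ := one (F := F) hLB hCMP hKS hSPR p α h0 h1
  obtain ⟨σ, hσ, hs1, hs2⟩ := hREFL F
  have hneg : (-1 : F) ≠ 0 := neg_ne_zero.mpr one_ne_zero
  have e1 : (-1 - X : F[X]) = C (-1) * (X + 1) := by
    rw [C_neg, C_1]; ring
  have e2 : (-X : F[X]) = C (-1) * X := by
    rw [C_neg, C_1]; ring
  -- the element `σ z'`
  have hdX : dimH (closure (orb X (σ z'))) = ENNReal.ofReal α := by
    rw [orb_image X (-1 - X) σ hs1, closure_image σ hσ, hσ.dimH_image, ← hz4, e1]
    exact (hSCAL F (X + 1) (-1) z' hneg).1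
  have hcX1 : (closure (orb (X + 1) (σ z'))).Countable := by
    rw [orb_image (X + 1) (-X) σ hs2, closure_image σ hσ, e2]
    exact ((hSCAL F X (-1) z' hneg).2 hz3).image σ
  rcases eq_or_lt_of_le h0 with hα | hα
  · rcases eq_or_lt_of_le h2 with hβ | hβ
    · subst hα
      subst hβ
      refine ⟨lacunary p (fun _ => 1), ?_, ?_, ?_⟩
      · rw [lac_irrational p hp]
        exact Filter.Frequently.of_forall fun _ => one_ne_zero
      · rw [← orbit_one, lac_dim, ENNReal.ofReal_zero]
      · rw [← orbit_one, lac_dim, ENNReal.ofReal_zero]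
    · refine ⟨⟨fun i => (σ z').digit i + z.digit i⟩, ?_, ?_, ?_⟩
      · intro B hB
        by_contra hcon
        push Not at hcon
        have h4 := hRAT F _ B hB hcon 1 (fun _ => X + 1)
        rw [orbit_one] at h4
        have h5 : dimH (closure (orb (X + 1) (⟨fun i => (σ z').digit i + z.digit i⟩ : Torus F))) =
            ENNReal.ofReal β := by
          have h6 := sum_eq hSUM (X + 1) z (σ z') hcX1
          simp only [add_comm] at h6 ⊢
          rw [← hz2]
          simpa only [add_comm] using h6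
        rw [h5, ENNReal.ofReal_eq_zero] at h4
        linarith
      · rw [sum_eq hSUM X (σ z') z hz1, hdX]
      · have h6 := sum_eq hSUM (X + 1) z (σ z') hcX1
        rw [hz2] at h6
        rw [← h6]
        congr 3
        ext i
        exact add_comm _ _
  · refine ⟨⟨fun i => (σ z').digit i + z.digit i⟩, ?_, ?_, ?_⟩
    · intro B hB
      by_contra hcon
      push Not at hcon
      have h4 := hRAT F _ B hB hcon 1 (fun _ => X)
      rw [orbit_one, sum_eq hSUM X (σ z') z hz1, hdX, ENNReal.ofReal_eq_zero] at h4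
      linarith
    · rw [sum_eq hSUM X (σ z') z hz1, hdX]
    · have h6 := sum_eq hSUM (X + 1) z (σ z') hcX1
      rw [hz2] at h6
      rw [← h6]
      congr 3
      ext i
      exact add_comm _ _

end Pool.Agent.H599.PR.FIN
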