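import Pool.Agent.H599.PR.Stm

set_option autoImplicit false

/-!
# The substitution `t → -1 - t` is an isometry of the torus

Written by helper364.
-/

open Polynomial Filter Topology
open scoped ENNReal NNReal
open Pool.Agent.H599.Tor

namespace Pool.Agent.H599.PR

namespace REFL

open Pool.Agent.H599.FF

variable {F : Type} [Field F]

/-- the operator `-1 - sh` -/
def T : Module.End F (ℕ → F) := -1 - sh

lemma T_apply (x : ℕ → F) (n : ℕ) : T x n = -x n - x (n + 1) := rfl

/-- the substitution on the coefficients -/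
def s : (ℕ → F) →ₗ[F] (ℕ → F) where
  toFun x := fun n => -((T ^ n : Module.End F (ℕ → F)) x 0)
  map_add' x y := by
    funext n
    rw [map_add]
    show -((T ^ n : Module.End F (ℕ → F)) x 0 + (T ^ n : Module.End F (ℕ → F)) y 0) =
      -((T ^ n : Module.End F (ℕ → F)) x 0) + -((T ^ n : Module.End F (ℕ → F)) y 0)
    ring
  map_smul' c x := by
    funext n
    rw [map_smul]
    show -(c * (T ^ n : Module.End F (ℕ → F)) x 0) = c * -((T ^ n : Module.End F (ℕ → F)) x 0)
    ring

lemma s_apply (x : ℕ → F) (n : ℕ) : s x n = -((T ^ n : Module.End F (ℕ → F)) x 0) := rfl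

lemma sh_s (x : ℕ → F) : sh (s x) = s (T x) := by
  funext n
  show s x (n + 1) = s (T x) n
  rw [s_apply, s_apply, pow_succ, Module.End.mul_apply]

lemma T_s (x : ℕ → F) : T (s x) = s (sh x) := by
  have h1 : T (s x) = -(s x) - sh (s x) := rfl
  have h2 : sh x = -x - T x := by
    funext n
    show x (n + 1) = -x n - T x n
    rw [T_apply]
    ring
  rw [h1, sh_s, h2, map_sub, map_neg]

lemma Tn_s (n : ℕ) : ∀ x : ℕ → F, (T ^ n : Module.End F (ℕ → F)) (s x) =
    s ((sh ^ n : Module.End F (ℕ → F)) x) := by
  induction n with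
  | zero => intro x; simp
  | succ n ih =>
    intro x
    rw [pow_succ, Module.End.mul_apply, T_s, ih, pow_succ, Module.End.mul_apply]

lemma s_s (x : ℕ → F) : s (s x) = x := by
  funext n
  rw [s_apply, Tn_s, s_apply, pow_zero, Module.End.one_apply, sh_pow, Nat.zero_add, neg_neg]

lemma T_congr (n : ℕ) : ∀ (x y : ℕ → F) (k : ℕ), (∀ m, m ≤ k + n → x m = y m) →
    (T ^ n : Module.End F (ℕ → F)) x k = (T ^ n : Module.End F (ℕ → F)) y k := by
  induction n with
  | zero =>
    intro x y k h
    simp only [pow_zero, Module.End.one_apply]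
    exact h k le_rfl
  | succ n ih =>
    intro x y k h
    rw [pow_succ, Module.End.mul_apply, Module.End.mul_apply]
    apply ih
    intro m hm
    rw [T_apply, T_apply, h m (by omega), h (m + 1) (by omega)]

lemma s_congr (x y : ℕ → F) (L : ℕ) (h : ∀ n < L, x n = y n) : ∀ n < L, s x n = s y n := by
  intro n hn
  rw [s_apply, s_apply, T_congr n x y 0 (fun m hm => h m (by omega))]

lemma dist_mono [Fintype F] (x y x' y' : Torus F)
    (h : ∀ L, (∀ n < L, x.digit n = y.digit n) → ∀ n < L, x'.digit n = y'.digit n) :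
    distance x' y' ≤ distance x y := by
  classical
  by_cases h1 : ∃ n, x.digit n ≠ y.digit n
  · have e : distance x y = ((Fintype.card F : ℝ)⁻¹) ^ (Nat.find h1 + 1) := by
      unfold distance
      rw [dif_pos h1]
    rw [e, distance_le]
    apply h
    intro n hn
    by_contra h2
    exact absurd (Nat.find_min' h1 h2) (by omega)
  · have h2 : ¬ ∃ n, x'.digit n ≠ y'.digit n := by
      rintro ⟨n, hn⟩
      apply hn
      push Not at h1
      exact h (n + 1) (fun m _ => h1 m) n (by omega)
    have e : distance x' y' = 0 := by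
      unfold distance
      rw [dif_neg h2]
    rw [e]
    exact distance_nonneg x y

end REFL

theorem t_REFL : S_REFL := by
  intro F _ _
  refine ⟨fun x => ⟨REFL.s x.digit⟩, ?_, ?_, ?_⟩
  · refine Isometry.of_dist_eq fun x y => ?_
    show distance _ _ = distance x y
    apply le_antisymm
    · exact REFL.dist_mono _ _ _ _ fun L h => REFL.s_congr _ _ L h
    · refine REFL.dist_mono _ _ _ _ fun L h => ?_
      have h1 := REFL.s_congr _ _ L h
      intro n hn
      have h2 := h1 n hn
      rwa [REFL.s_s, REFL.s_s] at h2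
  · intro x
    ext n
    show FF.ml X (REFL.s x.digit) n = REFL.s (FF.ml (-1 - X) x.digit) n
    rw [FF.ml_eq, FF.ml_eq, aeval_X, REFL.sh_s, map_sub, map_neg, map_one, aeval_X]
    rfl
  · intro x
    ext n
    show FF.ml (X + 1) (REFL.s x.digit) n = REFL.s (FF.ml (-X) x.digit) n
    rw [FF.ml_eq, FF.ml_eq, map_add, map_one, map_neg, aeval_X]
    have h1 : ((FF.sh + 1 : Module.End F (ℕ → F))) (REFL.s x.digit) =
        FF.sh (REFL.s x.digit) + REFL.s x.digit := rfl
    rw [h1, REFL.sh_s, ← map_add]
    have h2 : REFL.T x.digit + x.digit = (-FF.sh : Module.End F (ℕ → F)) x.digit := by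
      funext m
      show REFL.T x.digit m + x.digit m = -x.digit (m + 1)
      rw [REFL.T_apply]
      ring
    rw [h2]

end Pool.Agent.H599.PR
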