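import Pool.Agent.H599.PR.FIN
import Pool.Agent.H599.PR.REFL

set_option autoImplicit false

/-!
# All pairs of dimensions for two polynomials of degree one: the substitutions `t → c t + d`
-/

open Polynomial Filter Topology
open scoped ENNReal NNReal
open Pool.Agent.H599.Tor Pool.Agent.H599.UP Pool.Agent.H599.SP Pool.Agent.H599.PR.FIN

namespace Pool.Agent.H599.PR.LIN

open Pool.Agent.H599.FF

section a

variable {F : Type} [Field F]

/-- the operator `c sh + d` -/
def T (c d : F) : Module.End F (ℕ → F) := c • sh + d • 1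

lemma T_apply (c d : F) (x : ℕ → F) (n : ℕ) : T c d x n = c * x (n + 1) + d * x n := rfl

/-- the substitution on the coefficients -/
def s (c d : F) : (ℕ → F) →ₗ[F] (ℕ → F) where
  toFun x := fun n => (T c d ^ n : Module.End F (ℕ → F)) x 0
  map_add' x y := by
    funext n
    rw [map_add]
    rfl
  map_smul' a x := by
    funext n
    rw [map_smul]
    rfl

lemma s_apply (c d : F) (x : ℕ → F) (n : ℕ) : s c d x n = (T c d ^ n : Module.End F (ℕ → F)) x 0 := rfl

lemma sh_s (c d : F) (x : ℕ → F) : sh (s c d x) = s c d (T c d x) := by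
  funext n
  show s c d x (n + 1) = s c d (T c d x) n
  rw [s_apply, s_apply, pow_succ, Module.End.mul_apply]

lemma T_s (c d : F) (hc : c ≠ 0) (x : ℕ → F) : T c⁻¹ (-(c⁻¹ * d)) (s c d x) = s c d (sh x) := by
  have h1 : T c⁻¹ (-(c⁻¹ * d)) (s c d x) = c⁻¹ • sh (s c d x) + (-(c⁻¹ * d)) • s c d x := rfl
  have h2 : sh x = c⁻¹ • T c d x + (-(c⁻¹ * d)) • x := by
    funext n
    show x (n + 1) = c⁻¹ * T c d x n + (-(c⁻¹ * d)) * x n
    rw [T_apply]
    field_simp
    ring
  rw [h1, sh_s, h2, map_add, map_smul, map_smul]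

lemma Tn_s (c d : F) (hc : c ≠ 0) (n : ℕ) : ∀ x : ℕ → F,
    (T c⁻¹ (-(c⁻¹ * d)) ^ n : Module.End F (ℕ → F)) (s c d x) =
      s c d ((sh ^ n : Module.End F (ℕ → F)) x) := by
  induction n with
  | zero => intro x; simp
  | succ n ih =>
    intro x
    rw [pow_succ, Module.End.mul_apply, T_s c d hc, ih, pow_succ, Module.End.mul_apply]

lemma s_s (c d : F) (hc : c ≠ 0) (x : ℕ → F) : s c⁻¹ (-(c⁻¹ * d)) (s c d x) = x := by
  funext n
  rw [s_apply, Tn_s c d hc, s_apply, pow_zero, Module.End.one_apply, sh_pow, Nat.zero_add]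

lemma T_congr (c d : F) (n : ℕ) : ∀ (x y : ℕ → F) (k : ℕ), (∀ m, m ≤ k + n → x m = y m) →
    (T c d ^ n : Module.End F (ℕ → F)) x k = (T c d ^ n : Module.End F (ℕ → F)) y k := by
  induction n with
  | zero =>
    intro x y k h
    simp only [pow_zero, Module.End.one_apply]
    exact h k le_rfl
  | succ n ih =>
    intro x y k h
    rw [pow_succ, Module.End.mul_apply, Module.End.mul_apply]
    apply ih
    intro m hm
    rw [T_apply, T_apply, h m (by omega), h (m + 1) (by omega)]

lemma s_congr (c d : F) (x y : ℕ → F) (L : ℕ) (h : ∀ n < L, x n = y n) :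
    ∀ n < L, s c d x n = s c d y n := by
  intro n hn
  rw [s_apply, s_apply, T_congr c d n x y 0 (fun m hm => h m (by omega))]

lemma aeval_s (c d : F) (B : F[X]) (x : ℕ → F) :
    (aeval (sh : Module.End F (ℕ → F)) B) (s c d x) = s c d ((aeval (T c d) B) x) := by
  have hpow : ∀ (n : ℕ) (x : ℕ → F), (sh ^ n : Module.End F (ℕ → F)) (s c d x) =
      s c d ((T c d ^ n : Module.End F (ℕ → F)) x) := by
    intro n
    induction n with
    | zero => intro x; simp
    | succ n ih =>
      intro x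
      rw [pow_succ, Module.End.mul_apply, sh_s, ih, pow_succ, Module.End.mul_apply]
  rw [aeval_eq_sum_range, aeval_eq_sum_range, LinearMap.sum_apply, LinearMap.sum_apply, map_sum]
  refine Finset.sum_congr rfl fun i _ => ?_
  rw [LinearMap.smul_apply, LinearMap.smul_apply, map_smul, hpow]

lemma aeval_T (c d : F) : aeval (sh : Module.End F (ℕ → F)) (C c * X + C d : F[X]) = T c d := by
  rw [map_add, map_mul, aeval_C, aeval_C, aeval_X]
  refine LinearMap.ext fun x => ?_
  funext n
  simp [T]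

end a

/-- the substitution `t → c t + d` -/
theorem t_LIN {F : Type} [Field F] [Fintype F] (c d : F) (hc : c ≠ 0) :
    ∃ σ : Torus F → Torus F, Isometry σ ∧
      ∀ (B : F[X]) (x : Torus F), mul B (σ x) = σ (mul (B.comp (C c * X + C d)) x) := by
  refine ⟨fun x => ⟨s c d x.digit⟩, ?_, ?_⟩
  · refine Isometry.of_dist_eq fun x y => ?_
    show distance _ _ = distance x y
    apply le_antisymm
    · exact REFL.dist_mono _ _ _ _ fun L h => s_congr c d _ _ L h
    · refine REFL.dist_mono _ _ _ _ fun L h => ?_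
      have h1 := s_congr c⁻¹ (-(c⁻¹ * d)) _ _ L h
      intro n hn
      have h2 := h1 n hn
      rwa [s_s c d hc, s_s c d hc] at h2
  · intro B x
    apply Torus.ext
    show FF.ml B (s c d x.digit) = s c d (FF.ml (B.comp (C c * X + C d)) x.digit)
    rw [FF.ml_eq, FF.ml_eq, aeval_comp, aeval_T, aeval_s]

variable {F : Type} [Field F] [Fintype F]

/-- all pairs for two polynomials of degree one -/
theorem pairs_linear (hLB : S_LB) (hCMP : S_CMP) (hKS : S_KS) (hRAT : S_RAT) (hSPR : S_SPR) (hREFL : S_REFL)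
    (hSUM : S_SUM) (hSCAL : S_SCAL) (A B : F[X]) (hA : A.natDegree = 1) (hB : B.natDegree = 1)
    (hAB : ∀ k l : ℕ, 0 < k → 0 < l → A ^ k ≠ B ^ l)
    (α β : ℝ) (h0 : 0 ≤ α) (h1 : α ≤ 1) (h2 : 0 ≤ β) (h3 : β ≤ 1) :
    ∃ x : Torus F, Tor.Irrational x ∧ dimH (closure (orb A x)) = ENNReal.ofReal α ∧
      dimH (closure (orb B x)) = ENNReal.ofReal β := by
  classical
  obtain ⟨p, hp⟩ := CharP.exists F
  have : Fact p.Prime := ⟨CharP.char_is_prime F p⟩
  obtain ⟨u, u0, hu⟩ := exists_eq_X_add_C_of_natDegree_le_one hA.le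
  obtain ⟨v, v0, hv⟩ := exists_eq_X_add_C_of_natDegree_le_one hB.le
  have hu1 : u ≠ 0 := by
    rintro rfl
    rw [hu, C_0, zero_mul, zero_add, natDegree_C] at hA
    exact absurd hA (by norm_num)
  have hv1 : v ≠ 0 := by
    rintro rfl
    rw [hv, C_0, zero_mul, zero_add, natDegree_C] at hB
    exact absurd hB (by norm_num)
  have hc : v0 / v - u0 / u ≠ 0 := by
    intro h
    have hcard : 0 < Fintype.card F - 1 := by
      have := Fintype.one_lt_card (α := F)
      omega
    refine hAB _ _ hcard hcard ?_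
    have h4 : A = C (u / v) * B := by
      rw [hu, hv, mul_add, ← mul_assoc, ← C_mul, ← C_mul, div_mul_cancel₀ u hv1]
      congr 2
      rw [sub_eq_zero] at h
      field_simp at h ⊢
      linear_combination (-1 : F) * h
    rw [h4, mul_pow, ← C_pow, FiniteField.pow_card_sub_one_eq_one _ (div_ne_zero hu1 hv1), C_1, one_mul]
  obtain ⟨σ, hσ, hσ2⟩ := t_LIN (v0 / v - u0 / u) (-(u0 / u)) hc
  have eA : A.comp (C (v0 / v - u0 / u) * X + C (-(u0 / u))) = C (u * (v0 / v - u0 / u)) * X := by
    have h4 : u * -(u0 / u) + u0 = 0 := by field_simp; ring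
    rw [hu]
    simp only [add_comp, mul_comp, C_comp, X_comp]
    rw [mul_add, ← mul_assoc, ← C_mul, ← C_mul, add_assoc, ← C_add, h4, C_0, add_zero]
  have eB : B.comp (C (v0 / v - u0 / u) * X + C (-(u0 / u))) = C (v * (v0 / v - u0 / u)) * (X + 1) := by
    have h4 : v * -(u0 / u) + v0 = v * (v0 / v - u0 / u) := by field_simp; ring
    rw [hv]
    simp only [add_comp, mul_comp, C_comp, X_comp]
    rw [mul_add, ← mul_assoc, ← C_mul, ← C_mul, add_assoc, ← C_add, h4, mul_add, mul_one]
  obtain ⟨x, hx1, hx2, hx3⟩ := pairs (F := F) hLB hCMP hKS hRAT hSPR hREFL hSUM hSCAL p α β h0 h1 h2 h3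
  refine ⟨σ x, ?_, ?_, ?_⟩
  · intro G hG
    by_contra hcon
    push Not at hcon
    have hz : ∀ y : Torus F, mul (0 : F[X]) y = ⟨fun _ => 0⟩ := by
      intro y
      apply Torus.ext
      funext n
      unfold mul
      simp
    have hσ0 : σ ⟨fun _ => 0⟩ = ⟨fun _ => 0⟩ := by
      have := hσ2 0 x
      rw [zero_comp, hz, hz] at this
      exact this.symm
    have h4 : mul G (σ x) = ⟨fun _ => 0⟩ := by
      apply Torus.ext
      funext n
      exact hcon n
    rw [hσ2, ← hσ0] at h4
    have h5 := hσ.injective h4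
    have hne : G.comp (C (v0 / v - u0 / u) * X + C (-(u0 / u))) ≠ 0 := by
      intro h6
      rw [comp_eq_zero_iff] at h6
      rcases h6 with h6 | ⟨-, h6⟩
      · exact hG h6
      · have h7 := congrArg (fun P : F[X] => P.coeff 1) h6
        simp [coeff_C] at h7
        exact hc (by simpa using h7)
    obtain ⟨n, hn⟩ := hx1 _ hne
    rw [h5] at hn
    exact hn rfl
  · rw [orb_image A (C (u * (v0 / v - u0 / u)) * X) σ (fun y => by rw [hσ2, eA]), closure_image σ hσ,
      hσ.dimH_image, ← hx2]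
    exact (hSCAL F X _ x (mul_ne_zero hu1 hc)).1
  · rw [orb_image B (C (v * (v0 / v - u0 / u)) * (X + 1)) σ (fun y => by rw [hσ2, eB]), closure_image σ hσ,
      hσ.dimH_image, ← hx3]
    exact (hSCAL F (X + 1) _ x (mul_ne_zero hv1 hc)).1

end Pool.Agent.H599.PR.LIN
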