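import Pool.Agent.H599.PR.Stm

set_option autoImplicit false

/-!
# A sparse element supported in `K` with a countable `t`-orbit closure and a rich `(t + 1)`-orbit
-/

open Polynomial Filter Topology
open scoped ENNReal NNReal
open Pool.Agent.H599.Tor

namespace Pool.Agent.H599.PR

namespace SPRaux

/-- the class of `n` modulo `p ^ k` lies in `K` -/
def adm (p : ℕ) (K : Set ℕ) (k n : ℕ) : Prop := ∀ l, p ^ k * l + n % p ^ k ∈ K

lemma log_place {p s r : ℕ} (hp : 2 ≤ p) (hr : r < p ^ s) : Nat.log p (p ^ s + r) = s := by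
  apply Nat.log_eq_of_pow_le_of_lt_pow
  · omega
  · have h1 : p ^ (s + 1) = p ^ s * p := pow_succ _ _
    have h2 : p ^ s * 2 ≤ p ^ s * p := Nat.mul_le_mul_left _ hp
    omega

lemma sum_le {p T : ℕ} (hp : 2 ≤ p) (M : ℕ) :
    p ^ T + ∑ i ∈ Finset.range M, p ^ (T + i) ≤ p ^ (T + M) := by
  induction M with
  | zero => simp
  | succ M ih =>
    rw [Finset.sum_range_succ]
    have h1 : p ^ (T + (M + 1)) = p ^ (T + M) * p := by rw [← add_assoc, pow_succ]
    have h2 : p ^ (T + M) * 2 ≤ p ^ (T + M) * p := Nat.mul_le_mul_left _ hp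
    omega

lemma log_sum {p T n : ℕ} (hp : 2 ≤ p) (hn : n < p ^ T) (I : Finset ℕ) (M : ℕ) (hM : M ∈ I)
    (hmax : ∀ i ∈ I, i ≤ M) : Nat.log p (n + ∑ i ∈ I, p ^ (T + i)) = T + M := by
  apply Nat.log_eq_of_pow_le_of_lt_pow
  · have h1 := Finset.single_le_sum (f := fun i => p ^ (T + i)) (fun i _ => Nat.zero_le _) hM
    omega
  · have h1 : ∑ i ∈ I, p ^ (T + i) ≤ ∑ i ∈ Finset.range (M + 1), p ^ (T + i) :=
      Finset.sum_le_sum_of_subset (fun i hi => Finset.mem_range.2 (Nat.lt_succ_of_le (hmax i hi)))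
    have h2 := sum_le (T := T) hp (M + 1)
    rw [← add_assoc] at h2
    omega

lemma uniq {T len : ℕ → ℕ} (hT2 : ∀ j j', j < j' → T j + len j ≤ T j') {j j' n n' : ℕ}
    (hn : n < len j) (hn' : n' < len j') (h : T j + n = T j' + n') : j = j' ∧ n = n' := by
  rcases lt_trichotomy j j' with h1 | h1 | h1
  · have := hT2 _ _ h1
    omega
  · subst h1
    omega
  · have := hT2 _ _ h1
    omega

variable {F : Type} [Field F]

open Classical in
/-- the digits -/
noncomputable def zz (p : ℕ) (T len kk : ℕ → ℕ) (v : ℕ → ℕ → F) (K : Set ℕ) : ℕ → F := fun N =>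
  if h : ∃ x : ℕ × ℕ, x.2 < len x.1 ∧ adm p K (kk x.1) x.2 ∧ N = p ^ (T x.1 + x.2) + x.2 then
    v h.choose.1 h.choose.2 else 0

lemma zz_ne {p : ℕ} {T len kk : ℕ → ℕ} {v : ℕ → ℕ → F} {K : Set ℕ} {N : ℕ}
    (h : zz p T len kk v K N ≠ 0) :
    ∃ j n, n < len j ∧ adm p K (kk j) n ∧ N = p ^ (T j + n) + n := by
  classical
  unfold zz at h
  split_ifs at h with h1
  · obtain ⟨x, h2⟩ := h1
    exact ⟨x.1, x.2, h2⟩
  · exact absurd rfl h

lemma small {p : ℕ} {T len : ℕ → ℕ} (hp : 2 ≤ p) (hT1 : ∀ j, 2 * len j ≤ p ^ T j) {j n : ℕ}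
    (hn : n < len j) : 2 * n + 2 ≤ p ^ (T j + n) := by
  have h1 := hT1 j
  have h2 : p ^ T j ≤ p ^ (T j + n) := Nat.pow_le_pow_right (by omega) (by omega)
  omega

lemma zz_place {p : ℕ} {T len kk : ℕ → ℕ} {v : ℕ → ℕ → F} {K : Set ℕ} (hp : 2 ≤ p)
    (hT1 : ∀ j, 2 * len j ≤ p ^ T j) (hT2 : ∀ j j', j < j' → T j + len j ≤ T j') {j n : ℕ}
    (hn : n < len j) (ha : adm p K (kk j) n) :
    zz p T len kk v K (p ^ (T j + n) + n) = v j n := by
  classical
  have h : ∃ x : ℕ × ℕ, x.2 < len x.1 ∧ adm p K (kk x.1) x.2 ∧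
      p ^ (T j + n) + n = p ^ (T x.1 + x.2) + x.2 := ⟨(j, n), hn, ha, rfl⟩
  unfold zz
  rw [dif_pos h]
  obtain ⟨h1, h2, h3⟩ := h.choose_spec
  have h4 := small hp hT1 hn
  have h5 := small hp hT1 h1
  have h6 := congrArg (Nat.log p) h3
  rw [log_place hp (by omega), log_place hp (by omega)] at h6
  obtain ⟨e1, e2⟩ := uniq hT2 hn h1 h6
  rw [← e1, ← e2]

lemma gap {p : ℕ} {T len kk : ℕ → ℕ} {v : ℕ → ℕ → F} {K : Set ℕ} (hp : 2 ≤ p)
    (hT1 : ∀ j, 2 * len j ≤ p ^ T j) (hT2 : ∀ j j', j < j' → T j + len j ≤ T j') {N N' : ℕ}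
    (h : zz p T len kk v K N ≠ 0) (h' : zz p T len kk v K N' ≠ 0) (hlt : N < N') :
    N < 4 * (N' - N) := by
  obtain ⟨j, n, hn, -, hN⟩ := zz_ne h
  obtain ⟨j', n', hn', -, hN'⟩ := zz_ne h'
  have h4 := small hp hT1 hn
  have h5 := small hp hT1 hn'
  have hs : T j + n < T j' + n' := by
    by_contra hle
    rcases Nat.eq_or_lt_of_le (not_lt.1 hle) with h6 | h6
    · obtain ⟨e1, e2⟩ := uniq hT2 hn hn' h6.symm
      subst e1
      subst e2
      omega
    · have h7 : p ^ (T j' + n' + 1) ≤ p ^ (T j + n) := Nat.pow_le_pow_right (by omega) h6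
      have h8 : p ^ (T j' + n' + 1) = p ^ (T j' + n') * p := pow_succ _ _
      have h9 : p ^ (T j' + n') * 2 ≤ p ^ (T j' + n') * p := Nat.mul_le_mul_left _ hp
      omega
  have h7 : p ^ (T j + n + 1) ≤ p ^ (T j' + n') := Nat.pow_le_pow_right (by omega) hs
  have h8 : p ^ (T j + n + 1) = p ^ (T j + n) * p := pow_succ _ _
  have h9 : p ^ (T j + n) * 2 ≤ p ^ (T j + n) * p := Nat.mul_le_mul_left _ hp
  omega

/-- the other subsets do not contribute -/
lemma zz_sum {p : ℕ} {T len kk : ℕ → ℕ} {v : ℕ → ℕ → F} {K : Set ℕ} (hp : 2 ≤ p)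
    (hT1 : ∀ j, 2 * len j ≤ p ^ T j) (hT2 : ∀ j j', j < j' → T j + len j ≤ T j') {j n : ℕ}
    (hn : n < len j) (I : Finset ℕ) (hI : ∀ i ∈ I, i < len j) (hI0 : I.Nonempty) (hIn : I ≠ {n}) :
    zz p T len kk v K (n + ∑ i ∈ I, p ^ (T j + i)) = 0 := by
  classical
  by_contra hne
  obtain ⟨j', n', hn', -, hN⟩ := zz_ne hne
  have h1 := hT1 j
  have h5 := small hp hT1 hn'
  have hM : I.max' hI0 ∈ I := Finset.max'_mem _ _
  have hMl := hI _ hM
  have h6 := log_sum (T := T j) (n := n) hp (by omega) I (I.max' hI0) hM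
    (fun i hi => Finset.le_max' _ _ hi)
  rw [hN, log_place hp (by omega)] at h6
  obtain ⟨e1, e2⟩ := uniq hT2 hn' hMl h6
  subst e1
  rw [← Finset.add_sum_erase I _ hM, ← e2] at hN
  have h7 : I.erase n' = ∅ := by
    by_contra hne'
    obtain ⟨i, hi⟩ := Finset.nonempty_iff_ne_empty.2 hne'
    have h8 := Finset.single_le_sum (f := fun i => p ^ (T j' + i)) (fun i _ => Nat.zero_le _) hi
    have h9 : p ^ T j' ≤ p ^ (T j' + i) := Nat.pow_le_pow_right (by omega) (by omega)
    omega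
  rw [h7, Finset.sum_empty] at hN
  apply hIn
  have h10 : n = n' := by omega
  rw [h10]
  rw [← e2] at hM
  rw [← Finset.insert_erase hM, h7, insert_empty_eq]

lemma ml_expand (p : ℕ) [Fact p.Prime] [CharP F p] (A : Finset ℕ) (t : ℕ) (x : ℕ → F) (n : ℕ) :
    FF.ml ((X + 1 : F[X]) ^ (∑ i ∈ A, p ^ (t + i))) x n =
      ∑ I ∈ A.powerset, x (n + ∑ i ∈ I, p ^ (t + i)) := by
  classical
  have h1 : (X + 1 : F[X]) ^ (∑ i ∈ A, p ^ (t + i)) =
      ∑ I ∈ A.powerset, X ^ (∑ i ∈ I, p ^ (t + i)) := by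
    rw [← Finset.prod_pow_eq_pow_sum]
    have h2 : ∀ i ∈ A, (X + 1 : F[X]) ^ (p ^ (t + i)) = X ^ (p ^ (t + i)) + 1 := by
      intro i _
      rw [add_pow_char_pow, one_pow]
    rw [Finset.prod_congr rfl h2, Finset.prod_add_one]
    exact Finset.sum_congr rfl fun I _ => Finset.prod_pow_eq_pow_sum _ _ _
  rw [h1, FF.ml_eq, map_sum, LinearMap.sum_apply, Finset.sum_apply]
  refine Finset.sum_congr rfl fun I _ => ?_
  rw [map_pow, aeval_X, FF.sh_pow]

lemma mul_X_pow (z : Torus F) (n i : ℕ) : (mul (X ^ n : F[X]) z).digit i = z.digit (i + n) := by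
  rw [mul_digit, FF.ml_eq, map_pow, aeval_X, FF.sh_pow]

open Classical in
/-- one nonzero digit -/
noncomputable def one (x : ℕ × F) : Torus F := ⟨fun n => if n = x.1 then x.2 else 0⟩

/-- the enumeration of all pairs (exponent, word) -/
lemma exists_enum (F : Type) [Field F] [Fintype F] : ∃ (kk len : ℕ → ℕ) (v : ℕ → ℕ → F),
    ∀ (k L : ℕ) (w : ℕ → F), ∃ j, kk j = k ∧ len j = L ∧ ∀ n < L, v j n = w n := by
  classical
  obtain ⟨f, hf⟩ := exists_surjective_nat (ℕ × List F)
  refine ⟨fun j => (f j).1, fun j => (f j).2.length, fun j n => (f j).2.getD n 0, ?_⟩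
  intro k L w
  obtain ⟨j, hj⟩ := hf (k, (List.range L).map w)
  refine ⟨j, ?_, ?_, ?_⟩
  · simp [hj]
  · simp [hj]
  · intro n hn
    simp [hj, List.getD, hn]

end SPRaux

open SPRaux in
theorem t_SPR : S_SPR := by
  intro F _ _ p _ _ K
  classical
  have hp : 2 ≤ p := (Fact.out : p.Prime).two_le
  obtain ⟨kk, len, v, henum⟩ := exists_enum F
  obtain ⟨S, hS0⟩ : ∃ S : ℕ → ℕ, ∀ j, S j = ∑ i ∈ Finset.range j, (kk i + 3 * len i + 2) :=
    ⟨_, fun _ => rfl⟩
  obtain ⟨T, hT⟩ : ∃ T : ℕ → ℕ, ∀ j, T j = S j + kk j + 2 * len j + 2 := ⟨_, fun _ => rfl⟩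
  have hS1 : ∀ j, S (j + 1) = T j + len j := by
    intro j
    rw [hT, hS0, hS0, Finset.sum_range_succ]
    omega
  have hSm : Monotone S := monotone_nat_of_le_succ fun j => by rw [hS1, hT]; omega
  have hT1 : ∀ j, 2 * len j ≤ p ^ T j := by
    intro j
    have h1 : T j < 2 ^ T j := Nat.lt_two_pow_self
    have h2 : 2 ^ T j ≤ p ^ T j := Nat.pow_le_pow_left hp _
    have h3 := hT j
    omega
  have hT2 : ∀ j j', j < j' → T j + len j ≤ T j' := by
    intro j j' h
    have h1 : S (j + 1) ≤ S j' := hSm h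
    have h2 := hS1 j
    have h3 := hT j'
    omega
  have hTk : ∀ j, kk j ≤ T j := fun j => by rw [hT]; omega
  obtain ⟨z, hz⟩ : ∃ z : Torus F, z.digit = zz p T len kk v K := ⟨⟨_⟩, rfl⟩
  refine ⟨z, ?_, ?_, ?_⟩
  · -- support in `K`
    intro N hN
    by_contra hne
    rw [hz] at hne
    obtain ⟨j, n, hn, ha, hNe⟩ := zz_ne hne
    apply hN
    obtain ⟨c, hc⟩ : ∃ c, T j + n = kk j + c := ⟨T j + n - kk j, by have := hTk j; omega⟩
    have h1 := ha (p ^ c + n / p ^ kk j)
    have h2 : p ^ kk j * (p ^ c + n / p ^ kk j) + n % p ^ kk j = N := by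
      rw [hNe, hc, pow_add, mul_add, add_assoc, Nat.div_add_mod]
    rwa [h2] at h1
  · -- the closure of the orbit
    have hsub : closure (Set.range fun n : ℕ => mul (X ^ n : F[X]) z) ⊆
        (Set.range fun n : ℕ => mul (X ^ n : F[X]) z) ∪ Set.range (one (F := F)) := by
      intro y hy
      by_cases hone : ∃ i₁ i₂, i₁ < i₂ ∧ y.digit i₁ ≠ 0 ∧ y.digit i₂ ≠ 0
      · left
        obtain ⟨i₁, i₂, hlt, hy1, hy2⟩ := hone
        obtain ⟨E, hE⟩ : ∃ E : Set (Torus F),
            E = (fun n : ℕ => mul (X ^ n : F[X]) z) '' (Finset.range (4 * i₂) : Finset ℕ) := ⟨_, rfl⟩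
        have hEf : E.Finite := by
          rw [hE]
          exact (Finset.finite_toSet _).image _
        have hyE : y ∈ closure E := by
          rw [Metric.mem_closure_iff]
          intro ε hε
          have hq : (1 : ℝ) < Fintype.card F := by exact_mod_cast Fintype.one_lt_card
          have hqi : (0 : ℝ) < ((Fintype.card F : ℝ)⁻¹) ^ ((i₂ + 1) + 1) := by positivity
          obtain ⟨b, hb, hyb⟩ := Metric.mem_closure_iff.1 hy (min ε _) (lt_min hε hqi)
          have hyb1 := hyb.trans_le (min_le_left _ _)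
          have hyb2 : distance y b ≤ ((Fintype.card F : ℝ)⁻¹) ^ ((i₂ + 1) + 1) :=
            (hyb.trans_le (min_le_right _ _)).le
          have hag := (distance_le y b (i₂ + 1)).1 hyb2
          obtain ⟨n, rfl⟩ := hb
          refine ⟨_, ?_, hyb1⟩
          rw [hE]
          refine ⟨n, ?_, rfl⟩
          have e1 := hag i₁ (by omega)
          have e2 := hag i₂ (by omega)
          simp only at e1 e2
          rw [mul_X_pow, hz] at e1 e2
          rw [e1] at hy1
          rw [e2] at hy2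
          have h3 := gap hp hT1 hT2 hy1 hy2 (by omega)
          rw [Finset.mem_coe, Finset.mem_range]
          omega
        rw [hEf.isClosed.closure_eq, hE] at hyE
        obtain ⟨n, -, hn⟩ := hyE
        exact ⟨n, hn⟩
      · right
        push Not at hone
        by_cases h0 : ∃ i, y.digit i ≠ 0
        · obtain ⟨i, hi⟩ := h0
          refine ⟨(i, y.digit i), ?_⟩
          ext n
          show (if n = i then y.digit i else 0) = y.digit n
          split_ifs with h1
          · rw [h1]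
          · rcases lt_or_gt_of_ne h1 with h2 | h2
            · by_contra h3
              exact hi (hone n i h2 (fun h4 => h3 h4.symm))
            · exact (hone i n h2 hi).symm
        · push Not at h0
          refine ⟨(0, 0), ?_⟩
          ext n
          show (if n = 0 then (0 : F) else 0) = y.digit n
          rw [h0 n]
          split_ifs <;> rfl
    exact ((Set.countable_range _).union (Set.countable_range _)).mono hsub
  · -- rich orbit
    intro k L w
    obtain ⟨j, hk, hL, hv⟩ := henum k L (fun n => w n - z.digit n)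
    obtain ⟨A, hA⟩ : ∃ A : Finset ℕ, A = (Finset.range L).filter (fun n => adm p K k n) := ⟨_, rfl⟩
    refine ⟨∑ i ∈ A, p ^ (T j + i), fun n hn hadm => ?_⟩
    rw [mul_digit, ml_expand]
    have hnA : n ∈ A := by
      rw [hA]
      exact Finset.mem_filter.2 ⟨Finset.mem_range.2 hn, hadm⟩
    have hsub : ({∅, {n}} : Finset (Finset ℕ)) ⊆ A.powerset := by
      intro I hI
      rw [Finset.mem_insert, Finset.mem_singleton] at hI
      rw [Finset.mem_powerset]
      rcases hI with rfl | rfl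
      · exact Finset.empty_subset _
      · exact Finset.singleton_subset_iff.2 hnA
    rw [← Finset.sum_subset hsub]
    · rw [Finset.sum_pair (Finset.singleton_ne_empty n).symm, Finset.sum_empty, add_zero,
        Finset.sum_singleton, add_comm n, hz, zz_place hp hT1 hT2 (by omega) (by rw [hk]; exact hadm),
        hv n hn, hz]
      ring
    · intro I hI hI'
      rw [Finset.mem_insert, Finset.mem_singleton, not_or] at hI'
      rw [Finset.mem_powerset] at hI
      rw [hz]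
      refine zz_sum hp hT1 hT2 (by omega) I (fun i hi => ?_) (Finset.nonempty_iff_ne_empty.2 hI'.1) hI'.2
      have h1 := hI hi
      rw [hA, Finset.mem_filter, Finset.mem_range] at h1
      omega

end Pool.Agent.H599.PR
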