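import Pool.Agent.H599.PR.Stm
import Pool.Agent.H599.SP.CMP

set_option autoImplicit false

/-!
# Adding an element with a countable orbit closure; scalars
-/

open Polynomial Filter Topology
open scoped ENNReal NNReal
open Pool.Agent.H599.Tor

namespace Pool.Agent.H599.PR

namespace SUMaux

variable {F : Type} [Field F]

/-- the sum -/
def ad (x y : Torus F) : Torus F := ⟨fun i => x.digit i + y.digit i⟩

/-- the product with a scalar -/
def sm (c : F) (x : Torus F) : Torus F := ⟨fun i => c * x.digit i⟩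

lemma mul_ad (B : F[X]) (x y : Torus F) : mul B (ad x y) = ad (mul B x) (mul B y) := by
  ext n
  show ∑ i ∈ Finset.range (B.natDegree + 1), B.coeff i * (x.digit (n + i) + y.digit (n + i)) =
    ∑ i ∈ Finset.range (B.natDegree + 1), B.coeff i * x.digit (n + i) +
      ∑ i ∈ Finset.range (B.natDegree + 1), B.coeff i * y.digit (n + i)
  rw [← Finset.sum_add_distrib]
  exact Finset.sum_congr rfl fun i _ => mul_add _ _ _

lemma mul_C (a : F) (B : F[X]) (x : Torus F) : mul (C a * B) x = sm a (mul B x) := by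
  ext n
  have h1 : (mul (C a * B) x).digit = (sm a (mul B x)).digit := by
    show Pool.Agent.H599.FF.ml (C a * B) x.digit = fun i => a * Pool.Agent.H599.FF.ml B x.digit i
    rw [Pool.Agent.H599.FF.ml_eq, Pool.Agent.H599.FF.ml_eq, map_mul, aeval_C]
    rfl
  rw [h1]

lemma sm_sm (a b : F) (x : Torus F) : sm a (sm b x) = sm (a * b) x := by
  ext n
  show a * (b * x.digit n) = a * b * x.digit n
  rw [mul_assoc]

variable [Fintype F]

lemma dle {x y x' y' : Torus F} (h : ∀ L, (∀ n < L, x.digit n = y.digit n) →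
    ∀ n < L, x'.digit n = y'.digit n) : dist x' y' ≤ dist x y := by
  classical
  by_cases h0 : ∃ n, x.digit n ≠ y.digit n
  · have e : dist x y = ((Fintype.card F : ℝ)⁻¹) ^ (Nat.find h0 + 1) := by
      show distance x y = _
      unfold distance
      rw [dif_pos h0]
    rw [e]
    refine (distance_le _ _ _).2 (h _ fun n hn => ?_)
    by_contra h2
    exact Nat.find_min h0 hn h2
  · have h1 : ∀ n, x.digit n = y.digit n := by
      intro n
      by_contra h2
      exact h0 ⟨n, h2⟩
    have h2 : x' = y' := by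
      ext n
      exact h (n + 1) (fun m _ => h1 m) n (Nat.lt_succ_self n)
    rw [h2, dist_self]
    exact dist_nonneg

lemma iso_ad (c : Torus F) : Isometry (fun z : Torus F => ad z c) := by
  refine Isometry.of_dist_eq fun x y => le_antisymm (dle ?_) (dle ?_)
  · intro L h n hn
    show x.digit n + c.digit n = y.digit n + c.digit n
    rw [h n hn]
  · intro L h n hn
    exact add_right_cancel (h n hn : x.digit n + c.digit n = y.digit n + c.digit n)

lemma iso_sm {c : F} (hc : c ≠ 0) : Isometry (fun z : Torus F => sm c z) := by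
  refine Isometry.of_dist_eq fun x y => le_antisymm (dle ?_) (dle ?_)
  · intro L h n hn
    show c * x.digit n = c * y.digit n
    rw [h n hn]
  · intro L h n hn
    exact mul_left_cancel₀ hc (h n hn : c * x.digit n = c * y.digit n)

lemma cont_ad : Continuous (fun p : Torus F × Torus F => ad p.1 p.2) := by
  rw [Metric.continuous_iff]
  intro b ε hε
  obtain ⟨L, hL⟩ := Pool.Agent.H599.SP.CMPaux.exists_lt (F := F) hε
  have hq : (1 : ℝ) < Fintype.card F := by exact_mod_cast Fintype.one_lt_card
  have hqi0 : (0:ℝ) < (Fintype.card F : ℝ)⁻¹ := by positivity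
  refine ⟨((Fintype.card F : ℝ)⁻¹) ^ (L + 1), pow_pos hqi0 _, fun a ha => ?_⟩
  have h1 : dist a.1 b.1 ≤ ((Fintype.card F : ℝ)⁻¹) ^ (L + 1) :=
    (le_max_left _ _).trans ha.le
  have h2 : dist a.2 b.2 ≤ ((Fintype.card F : ℝ)⁻¹) ^ (L + 1) :=
    (le_max_right _ _).trans ha.le
  have h3 := (distance_le a.1 b.1 L).1 h1
  have h4 := (distance_le a.2 b.2 L).1 h2
  refine lt_of_le_of_lt ?_ hL
  refine (distance_le _ _ L).2 fun n hn => ?_
  show a.1.digit n + a.2.digit n = b.1.digit n + b.2.digit n
  rw [h3 n hn, h4 n hn]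

lemma half (A : F[X]) (c : F) (x : Torus F) (hc : c ≠ 0) :
    closure (Set.range fun n : ℕ => mul ((C c * A) ^ n) x) ⊆
      ⋃ u : Fˣ, (fun z : Torus F => sm (u : F) z) ''
        closure (Set.range fun n : ℕ => mul (A ^ n) x) := by
  have hcomp : CompactSpace (Torus F) := ⟨Pool.Agent.H599.SP.CMPaux.compact_univ⟩
  refine closure_minimal ?_ ?_
  · rintro _ ⟨n, rfl⟩
    refine Set.mem_iUnion.2 ⟨Units.mk0 c hc ^ n, mul (A ^ n) x, subset_closure ⟨n, rfl⟩, ?_⟩
    show sm ((Units.mk0 c hc ^ n : Fˣ) : F) (mul (A ^ n) x) = mul ((C c * A) ^ n) x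
    rw [mul_pow, ← C_pow, mul_C]
    rfl
  · refine isClosed_iUnion_of_finite fun u => ?_
    exact (isClosed_closure.isCompact.image (iso_sm u.ne_zero).continuous).isClosed

lemma half_dim (A : F[X]) (c : F) (x : Torus F) (hc : c ≠ 0) :
    dimH (closure (Set.range fun n : ℕ => mul ((C c * A) ^ n) x)) ≤
      dimH (closure (Set.range fun n : ℕ => mul (A ^ n) x)) := by
  refine (dimH_mono (half A c x hc)).trans ?_
  rw [dimH_iUnion]
  exact iSup_le fun u => ((iso_sm u.ne_zero).dimH_image _).le

end SUMaux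

open SUMaux

theorem t_SUM : S_SUM := by
  intro F _ _ A x y hy
  have hcomp : CompactSpace (Torus F) := ⟨Pool.Agent.H599.SP.CMPaux.compact_univ⟩
  have hsub : closure (Set.range fun n : ℕ =>
      mul (A ^ n) (⟨fun i => x.digit i + y.digit i⟩ : Torus F)) ⊆
      ⋃ c ∈ closure (Set.range fun n : ℕ => mul (A ^ n) y),
        (fun z : Torus F => ad z c) '' closure (Set.range fun n : ℕ => mul (A ^ n) x) := by
    have h1 : (fun p : Torus F × Torus F => ad p.1 p.2) ''
        (closure (Set.range fun n : ℕ => mul (A ^ n) x) ×ˢ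
          closure (Set.range fun n : ℕ => mul (A ^ n) y)) ⊆
        ⋃ c ∈ closure (Set.range fun n : ℕ => mul (A ^ n) y),
          (fun z : Torus F => ad z c) '' closure (Set.range fun n : ℕ => mul (A ^ n) x) := by
      rintro _ ⟨⟨a, b⟩, ⟨ha, hb⟩, rfl⟩
      exact Set.mem_biUnion hb ⟨a, ha, rfl⟩
    refine (closure_minimal ?_ ?_).trans h1
    · rintro _ ⟨n, rfl⟩
      refine ⟨(mul (A ^ n) x, mul (A ^ n) y), ⟨subset_closure ⟨n, rfl⟩,
        subset_closure ⟨n, rfl⟩⟩, ?_⟩
      exact (mul_ad (A ^ n) x y).symm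
    · exact ((isClosed_closure.isCompact.prod isClosed_closure.isCompact).image
        cont_ad).isClosed
  refine (dimH_mono hsub).trans ?_
  rw [dimH_bUnion hy]
  exact iSup₂_le fun c _ => ((iso_ad c).dimH_image _).le

theorem t_SCAL : S_SCAL := by
  intro F _ _ A c x hc
  refine ⟨le_antisymm (half_dim A c x hc) ?_, fun h => ?_⟩
  · have h1 := half_dim (C c * A) c⁻¹ x (inv_ne_zero hc)
    have h2 : C c⁻¹ * (C c * A) = A := by
      rw [← mul_assoc, ← C_mul, inv_mul_cancel₀ hc, C_1, one_mul]
    rw [h2] at h1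
    exact h1
  · exact (Set.countable_iUnion fun u : Fˣ => h.image _).mono (half A c x hc)

end Pool.Agent.H599.PR
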